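import Pool.Agent.V5helper50.RS.Stm

set_option autoImplicit false

open Finset

namespace Pool.Agent.V5helper11.RS

open Pool.Agent.V5helper50.RS

theorem exp_le_two (y : ℝ) (h0 : 0 ≤ y) (h1 : y ≤ 1) : Real.exp y ≤ 1 + 2 * y := by
  have h := Real.abs_exp_sub_one_sub_id_le (x := y) (by rw [abs_of_nonneg h0]; exact h1)
  have h2 := (abs_le.1 h).2
  nlinarith

theorem t_CHU : S_CHU := by
  intro T hT n f m B lam hB hf hdep hm
  classical
  set g : ℕ → (ℕ → ℕ) → ℝ := fun x t => min (f x t / B) 1 with hg
  have key : ∀ n' ≤ n, av T n' (fun t => Real.exp (∑ x ∈ range n', g x t)) ≤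
      Real.exp (2 * ∑ x ∈ range n', m x / B) := by
    intro n'
    induction n' with
    | zero => intro _; simp [av]
    | succ n' ih =>
      intro hn'
      have ih' := ih (by omega)
      have h0 : (0 : ℝ) < T n' := by exact_mod_cast hT n'
      show av T n' (fun t => (∑ v ∈ range (T n'), Real.exp (∑ x ∈ range (n' + 1), g x (Function.update t n' v))) / T n')
        ≤ _
      have h1 : av T n' (fun t => (∑ v ∈ range (T n'),
          Real.exp (∑ x ∈ range (n' + 1), g x (Function.update t n' v))) / T n') ≤
          av T n' (fun t => Real.exp (2 * (m n' / B)) * Real.exp (∑ x ∈ range n', g x t)) := by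
        apply av_mono hT
        intro t ht
        have hsame : ∀ v, ∀ x ∈ range n', g x (Function.update t n' v) = g x t := by
          intro v x hx
          have hx' := mem_range.1 hx
          simp only [hg]
          rw [hdep x (by omega) (Function.update t n' v) t
            (fun y hy => Function.update_of_ne (by omega) _ _)]
        have h2 : ∀ v ∈ range (T n'), Real.exp (∑ x ∈ range (n' + 1), g x (Function.update t n' v)) ≤
            Real.exp (∑ x ∈ range n', g x t) * (1 + 2 * (f n' (Function.update t n' v) / B)) := by
          intro v hv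
          rw [sum_range_succ, Real.exp_add, sum_congr rfl (hsame v)]
          apply mul_le_mul_of_nonneg_left _ (Real.exp_pos _).le
          have hnn : 0 ≤ f n' (Function.update t n' v) / B := div_nonneg (hf n' (by omega) _) hB.le
          have h3 : 0 ≤ g n' (Function.update t n' v) := le_min hnn zero_le_one
          have h4 : g n' (Function.update t n' v) ≤ 1 := min_le_right _ _
          have h5 : g n' (Function.update t n' v) ≤ f n' (Function.update t n' v) / B := min_le_left _ _
          have h6 := exp_le_two _ h3 h4
          linarith
        have h7 : (∑ v ∈ range (T n'), Real.exp (∑ x ∈ range (n' + 1), g x (Function.update t n' v))) / T n' ≤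
            Real.exp (∑ x ∈ range n', g x t) *
              (1 + 2 * (((∑ v ∈ range (T n'), f n' (Function.update t n' v)) / T n') / B)) := by
          rw [div_le_iff₀ h0]
          refine (sum_le_sum h2).trans (le_of_eq ?_)
          rw [← mul_sum, sum_add_distrib, ← mul_sum, ← sum_div, sum_const, card_range, nsmul_eq_mul]
          field_simp
        refine h7.trans ?_
        rw [mul_comm (Real.exp (2 * (m n' / B)))]
        apply mul_le_mul_of_nonneg_left _ (Real.exp_pos _).le
        have h8 := hm n' (by omega) t ht
        have h9 : ((∑ v ∈ range (T n'), f n' (Function.update t n' v)) / T n') / B ≤ m n' / B := by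
          gcongr
        have h10 := Real.add_one_le_exp (2 * (m n' / B))
        linarith
      refine h1.trans ?_
      rw [av_smul, sum_range_succ, mul_add, Real.exp_add, mul_comm]
      apply mul_le_mul_of_nonneg_right ih' (Real.exp_pos _).le
  have hfin : pr T n (fun t => (∀ x < n, f x t ≤ B) ∧ 2 * ∑ x ∈ range n, m x + lam * B ≤ ∑ x ∈ range n, f x t) ≤
      av T n (fun t => Real.exp (-(2 * ∑ x ∈ range n, m x / B) - lam) * Real.exp (∑ x ∈ range n, g x t)) := by
    unfold pr
    apply av_mono hT
    intro t ht
    split_ifs with hE
    · obtain ⟨hE1, hE2⟩ := hE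
      rw [← Real.exp_add]
      apply Real.one_le_exp
      have h1 : ∑ x ∈ range n, g x t = (∑ x ∈ range n, f x t) / B := by
        rw [sum_div]
        apply sum_congr rfl
        intro x hx
        simp only [hg]
        apply min_eq_left
        rw [div_le_one hB]
        exact hE1 x (mem_range.1 hx)
      have h2 : (2 * ∑ x ∈ range n, m x + lam * B) / B ≤ (∑ x ∈ range n, f x t) / B := by
        gcongr
      have h3 : (2 * ∑ x ∈ range n, m x + lam * B) / B = 2 * ∑ x ∈ range n, m x / B + lam := by
        rw [← sum_div]
        field_simp
      rw [h1]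
      linarith
    · positivity
  refine hfin.trans ?_
  rw [av_smul]
  calc Real.exp (-(2 * ∑ x ∈ range n, m x / B) - lam) * av T n (fun t => Real.exp (∑ x ∈ range n, g x t))
      ≤ Real.exp (-(2 * ∑ x ∈ range n, m x / B) - lam) * Real.exp (2 * ∑ x ∈ range n, m x / B) :=
        mul_le_mul_of_nonneg_left (key n le_rfl) (Real.exp_pos _).le
    _ = Real.exp (-lam) := by
        rw [← Real.exp_add]
        congr 1
        ring

end Pool.Agent.V5helper11.RS
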